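import Pool.Agent.Hhelper92.Mult.Final3

/-!
# The multiplicative divergence theorem for integer polynomials at real points

If `Ψ` is positive and non-increasing on `[1, ∞)` and `∑ (log h)^(n-1) Ψ(h)` diverges, then for
almost every real `ξ` there are infinitely many nonzero integer polynomials `P` of degree at most `n`
with `|P(ξ)| < Ψ(Π₊(P))`.  No continuity of `Ψ` is needed.
-/

set_option autoImplicit false

open Filter

namespace Pool.Agent.Results.MP_d77f78_nt.PolyDivergence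

/-- `Π₊(P) = ∏_{1 ≤ i ≤ n} max {1, |a_i|}`, `a_i` the coefficients of `P` -/
def PiPlus (n : ℕ) (P : Polynomial ℤ) : ℤ := ∏ i ∈ Finset.Icc 1 n, max 1 |P.coeff i|

/-- `∑_{h ≥ 1} (log h)^(n-1) Ψ(h) = ∞` -/
def Diverges (n : ℕ) (Ψ : ℝ → ℝ) : Prop :=
  Tendsto (fun N : ℕ => ∑ h ∈ Finset.Icc 1 N, Real.log (h : ℝ) ^ (n - 1) * Ψ (h : ℝ)) atTop atTop

/-- for almost all real `ξ` there are infinitely many nonzero integer polynomials `P` of degree at
most `n` with `|P(ξ)| < Ψ(Π₊(P))` -/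
def AlmostAll (n : ℕ) (Ψ : ℝ → ℝ) : Prop :=
  ∀ᵐ ξ : ℝ ∂MeasureTheory.volume, Set.Infinite {P : Polynomial ℤ | P ≠ 0 ∧ P.natDegree ≤ n ∧
    |Polynomial.aeval ξ P| < Ψ (PiPlus n P)}

/-- the polynomial with the coefficients `a` -/
noncomputable def pol {n : ℕ} (a : Fin (n + 1) → ℤ) : Polynomial ℤ :=
  ∑ i : Fin (n + 1), Polynomial.C (a i) * Polynomial.X ^ (i : ℕ)

lemma coeff_pol {n : ℕ} (a : Fin (n + 1) → ℤ) (j : Fin (n + 1)) : (pol a).coeff j = a j := by
  unfold pol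
  rw [Polynomial.finsetSum_coeff]
  rw [Finset.sum_eq_single j]
  · simp
  · intro i _ hij
    rw [Polynomial.coeff_C_mul, Polynomial.coeff_X_pow, if_neg, mul_zero]
    intro h
    exact hij (Fin.ext h.symm)
  · intro h
    exact absurd (Finset.mem_univ _) h

lemma pol_injective {n : ℕ} : Function.Injective (pol : (Fin (n + 1) → ℤ) → Polynomial ℤ) := by
  intro a b h
  funext j
  rw [← coeff_pol a j, ← coeff_pol b j, h]

lemma natDegree_pol {n : ℕ} (a : Fin (n + 1) → ℤ) : (pol a).natDegree ≤ n := by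
  unfold pol
  refine Polynomial.natDegree_sum_le_of_forall_le _ _ fun i _ => ?_
  refine (Polynomial.natDegree_C_mul_X_pow_le _ _).trans ?_
  exact Nat.lt_succ_iff.1 i.2

lemma aeval_pol {n : ℕ} (a : Fin (n + 1) → ℤ) (ξ : ℝ) :
    Polynomial.aeval ξ (pol a) = ∑ i : Fin (n + 1), (a i : ℝ) * ξ ^ (i : ℕ) := by
  unfold pol
  rw [map_sum]
  refine Finset.sum_congr rfl fun i _ => ?_
  simp

lemma piPlus_pol {n : ℕ} (a : Fin (n + 1) → ℤ) :
    ((PiPlus n (pol a) : ℤ) : ℝ) = ∏ i : Fin n, max 1 |((a i.succ : ℤ) : ℝ)| := by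
  have h1 : PiPlus n (pol a) = ∏ i : Fin n, max 1 |a i.succ| := by
    unfold PiPlus
    have e1 : ∏ i ∈ Finset.Icc 1 n, max 1 |(pol a).coeff i| =
        ∏ i ∈ Finset.range n, max 1 |(pol a).coeff (i + 1)| := by
      rw [Finset.range_eq_Ico, Finset.prod_Ico_add' (fun i => max 1 |(pol a).coeff i|) 0 n 1]
      rfl
    rw [e1, ← Fin.prod_univ_eq_prod_range (fun i => max 1 |(pol a).coeff (i + 1)|) n]
    refine Finset.prod_congr rfl fun i _ => ?_
    have h2 := coeff_pol a i.succ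
    rw [Fin.val_succ] at h2
    rw [h2]
  rw [h1]
  push_cast
  rfl

/-- For every `n ≥ 1` and every positive non-increasing `Ψ : [1, ∞) → ℝ` with
`∑ (log h)^(n-1) Ψ(h) = ∞`, almost every real `ξ` has infinitely many nonzero integer polynomials `P`
of degree at most `n` with `|P(ξ)| < Ψ(Π₊(P))`. -/
theorem result (n : ℕ) (hn : 1 ≤ n) (Ψ : ℝ → ℝ) (hanti : AntitoneOn Ψ (Set.Ici 1))
    (hpos : ∀ x : ℝ, 1 ≤ x → 0 < Ψ x) (hdiv : Diverges n Ψ) : AlmostAll n Ψ := by
  have hns : ¬ Summable (fun h : ℕ => Real.log ((h : ℝ) + 1) ^ (n - 1) * Ψ ((h : ℝ) + 1)) := by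
    intro hs
    have h1 := hs.hasSum.tendsto_sum_nat
    refine not_tendsto_nhds_of_tendsto_atTop hdiv _ (h1.congr fun N => ?_)
    rw [Finset.range_eq_Ico,
      show Finset.Icc 1 N = Finset.Ico (0 + 1) (N + 1) from rfl,
      ← Finset.sum_Ico_add' (fun h : ℕ => Real.log (h : ℝ) ^ (n - 1) * Ψ (h : ℝ)) 0 N 1]
    refine Finset.sum_congr rfl fun h _ => ?_
    push_cast
    rfl
  have hmain := MDiv.main n hn Ψ hanti hpos hns
  unfold AlmostAll
  filter_upwards [hmain] with ξ hξ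
  have h1 := (hξ.image (f := pol) pol_injective.injOn).sdiff (Set.finite_singleton (0 : Polynomial ℤ))
  refine h1.mono ?_
  rintro P ⟨⟨a, ha, rfl⟩, h0⟩
  refine ⟨h0, natDegree_pol a, ?_⟩
  rw [aeval_pol, piPlus_pol]
  exact ha

end Pool.Agent.Results.MP_d77f78_nt.PolyDivergence
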